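import Mathlib

set_option autoImplicit false

/-! # [RSD-A1] pigeonhole for real linear forms -/

namespace Pool.Agent.RSD

/-- **[RSD-A1]** Dirichlet/Siegel pigeonhole.  A real matrix `t` with `K` rows and `U` columns whose
rows have `ℓ¹`-norm at most `S`; if `(A S / ε + 1) ^ K < (A + 1) ^ U` there is a nonzero integer
vector with entries in `[-A, A]` on which every row is at most `ε` in absolute value.

Proof. For `v : Fin U → Fin (A+1)` put `y k v = ∑ u, t k u * v u` and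
`lo k = ∑ u, A * min (t k u) 0`.  Then `0 ≤ y k v - lo k ≤ A * ∑ u |t k u| ≤ A S`, so
`c v k := ⌊(y k v - lo k)/ε⌋₊` is a natural number `< ⌊A S/ε⌋₊ + 1 =: b` and
`(b : ℝ) ≤ A S / ε + 1`.  The map `v ↦ (k ↦ c v k)`, `(Fin U → Fin (A+1)) → (Fin K → Fin b)` is not
injective because `b ^ K ≤ (A S / ε + 1) ^ K < (A + 1) ^ U` (`Fintype.exists_ne_map_eq_of_card_lt`).
For `v ≠ v'` with the same image put `w u = (v u : ℤ) - v' u`; `|w u| ≤ A` and
`|y k v - y k v'| < ε` (`Nat.floor` equal implies difference of the arguments `< 1`). -/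
theorem pigeonhole_real (K U A : ℕ) (S ε : ℝ) (hS : 0 ≤ S) (hε : 0 < ε)
    (t : Fin K → Fin U → ℝ) (ht : ∀ k, ∑ u, |t k u| ≤ S)
    (hc : ((A : ℝ) * S / ε + 1) ^ K < ((A : ℝ) + 1) ^ U) :
    ∃ w : Fin U → ℤ, w ≠ 0 ∧ (∀ u, |w u| ≤ A) ∧ ∀ k, |∑ u, t k u * (w u : ℝ)| ≤ ε := by
  classical
  set b : ℕ := ⌊(A : ℝ) * S / ε⌋₊ + 1 with hb
  set lo : Fin K → ℝ := fun k => ∑ u, (A : ℝ) * min (t k u) 0 with hlo
  set y : Fin K → (Fin U → Fin (A + 1)) → ℝ := fun k v => ∑ u, t k u * ((v u : ℕ) : ℝ) with hy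
  have hAS : 0 ≤ (A : ℝ) * S / ε := by positivity
  have hbR : (b : ℝ) ≤ (A : ℝ) * S / ε + 1 := by
    rw [hb]; push_cast
    linarith [Nat.floor_le hAS]
  have hterm : ∀ (x : ℝ) (n : Fin (A + 1)), 0 ≤ x * ((n : ℕ) : ℝ) - (A : ℝ) * min x 0 ∧
      x * ((n : ℕ) : ℝ) - (A : ℝ) * min x 0 ≤ (A : ℝ) * |x| := by
    intro x n
    have h1 : (0 : ℝ) ≤ ((n : ℕ) : ℝ) := Nat.cast_nonneg _
    have h2 : ((n : ℕ) : ℝ) ≤ (A : ℝ) := by exact_mod_cast Nat.lt_succ_iff.mp n.2
    rcases le_total 0 x with hx | hx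
    · rw [min_eq_right hx, abs_of_nonneg hx]
      constructor
      · nlinarith
      · nlinarith
    · rw [min_eq_left hx, abs_of_nonpos hx]
      constructor
      · nlinarith
      · nlinarith
  have hrange : ∀ k v, 0 ≤ y k v - lo k ∧ y k v - lo k ≤ (A : ℝ) * S := by
    intro k v
    have e : y k v - lo k = ∑ u, (t k u * ((v u : ℕ) : ℝ) - (A : ℝ) * min (t k u) 0) := by
      rw [hy, hlo]; simp only []; rw [← Finset.sum_sub_distrib]
    rw [e]
    constructor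
    · exact Finset.sum_nonneg fun u _ => (hterm _ _).1
    · calc ∑ u, (t k u * ((v u : ℕ) : ℝ) - (A : ℝ) * min (t k u) 0)
          ≤ ∑ u, (A : ℝ) * |t k u| := Finset.sum_le_sum fun u _ => (hterm _ _).2
        _ = (A : ℝ) * ∑ u, |t k u| := by rw [Finset.mul_sum]
        _ ≤ (A : ℝ) * S := by
          apply mul_le_mul_of_nonneg_left (ht k) (Nat.cast_nonneg _)
  have hlt : ∀ k v, ⌊(y k v - lo k) / ε⌋₊ < b := by
    intro k v
    rw [hb]
    apply Nat.lt_succ_of_le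
    apply Nat.floor_le_floor
    exact div_le_div_of_nonneg_right (hrange k v).2 hε.le
  let F : (Fin U → Fin (A + 1)) → (Fin K → Fin b) := fun v k => ⟨⌊(y k v - lo k) / ε⌋₊, hlt k v⟩
  have hcard : Fintype.card (Fin K → Fin b) < Fintype.card (Fin U → Fin (A + 1)) := by
    simp only [Fintype.card_fun, Fintype.card_fin]
    have : ((b ^ K : ℕ) : ℝ) < (((A + 1) ^ U : ℕ) : ℝ) := by
      push_cast
      calc (b : ℝ) ^ K ≤ ((A : ℝ) * S / ε + 1) ^ K := by gcongr
        _ < ((A : ℝ) + 1) ^ U := hc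
    exact_mod_cast this
  obtain ⟨v, v', hne, heq⟩ := Fintype.exists_ne_map_eq_of_card_lt F hcard
  refine ⟨fun u => ((v u : ℕ) : ℤ) - ((v' u : ℕ) : ℤ), ?_, ?_, ?_⟩
  · intro h0
    apply hne
    funext u
    have := congrFun h0 u
    simp only [Pi.zero_apply, sub_eq_zero, Nat.cast_inj] at this
    exact Fin.ext this
  · intro u
    have h1 : ((v u : ℕ) : ℤ) ≤ A := by exact_mod_cast Nat.lt_succ_iff.mp (v u).2
    have h2 : ((v' u : ℕ) : ℤ) ≤ A := by exact_mod_cast Nat.lt_succ_iff.mp (v' u).2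
    have h3 : (0 : ℤ) ≤ ((v u : ℕ) : ℤ) := Int.natCast_nonneg _
    have h4 : (0 : ℤ) ≤ ((v' u : ℕ) : ℤ) := Int.natCast_nonneg _
    show |((v u : ℕ) : ℤ) - ((v' u : ℕ) : ℤ)| ≤ (A : ℤ)
    rw [abs_le]
    constructor <;> linarith
  · intro k
    have hf : ⌊(y k v - lo k) / ε⌋₊ = ⌊(y k v' - lo k) / ε⌋₊ := by
      have := congrFun heq k
      simpa [F] using this
    have e : ∑ u, t k u * ((((v u : ℕ) : ℤ) - ((v' u : ℕ) : ℤ) : ℤ) : ℝ) = y k v - y k v' := by
      rw [hy]; simp only []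
      rw [← Finset.sum_sub_distrib]
      refine Finset.sum_congr rfl fun u _ => ?_
      push_cast; ring
    rw [e]
    have p1 : 0 ≤ (y k v - lo k) / ε := div_nonneg (hrange k v).1 hε.le
    have p2 : 0 ≤ (y k v' - lo k) / ε := div_nonneg (hrange k v').1 hε.le
    have a1 := Nat.floor_le p1
    have a2 := Nat.lt_floor_add_one ((y k v - lo k) / ε)
    have a3 := Nat.floor_le p2
    have a4 := Nat.lt_floor_add_one ((y k v' - lo k) / ε)
    rw [hf] at a1 a2
    have hd : |(y k v - lo k) / ε - (y k v' - lo k) / ε| ≤ 1 := by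
      rw [abs_le]; constructor <;> linarith
    have e2 : (y k v - lo k) / ε - (y k v' - lo k) / ε = (y k v - y k v') / ε := by
      field_simp; ring
    rw [e2, abs_div, abs_of_pos hε, div_le_one hε] at hd
    exact hd

end Pool.Agent.RSD
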