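import Mathlib

set_option autoImplicit false

/-! # [RSD-A2] binomial polynomials -/

open Polynomial

namespace Pool.Agent.RSD

/-- the binomial polynomial `x (x-1) ⋯ (x-i+1) / i!` -/
noncomputable def bin (i : ℕ) : ℝ[X] := C ((i.factorial : ℝ)⁻¹) * descPochhammer ℝ i


/-- `natDegree` of the binomial polynomial (`descPochhammer` is monic of degree `i`:
`monic_descPochhammer`, `descPochhammer_natDegree`). -/
theorem bin_natDegree (i : ℕ) : (bin i).natDegree = i := by
  have h0 : ((i.factorial : ℝ)⁻¹) ≠ 0 := inv_ne_zero (by exact_mod_cast i.factorial_ne_zero)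
  rw [bin, natDegree_C_mul h0, descPochhammer_natDegree]

/-- The binomial polynomials with an integer combination equal to zero: linear independence.
(Degrees are distinct: induct on `U` from the top coefficient, or use
`Polynomial.linearIndependent`-type lemmas / leading coefficients `1 / i! ≠ 0`.) -/
theorem bin_comb_ne_zero (U : ℕ) (v : Fin U → ℤ) (hv : v ≠ 0) :
    ∑ i : Fin U, C (v i : ℝ) * bin i ≠ 0 := by
  classical
  -- the largest index with `v i ≠ 0`
  intro hsum
  apply hv
  by_contra hne
  obtain ⟨i0, hi0⟩ : ∃ i, v i ≠ 0 := by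
    by_contra h
    push Not at h
    exact hne (funext h)
  let T : Finset (Fin U) := Finset.univ.filter (fun i => v i ≠ 0)
  have hT : T.Nonempty := ⟨i0, by simp [T, hi0]⟩
  obtain ⟨j, hjT, hjmax⟩ := T.exists_max_image (fun i => (i : ℕ)) hT
  have hj : v j ≠ 0 := by simpa [T] using hjT
  have hcoeff : (∑ i : Fin U, C (v i : ℝ) * bin i).coeff (j : ℕ) = (v j : ℝ) * (bin j).coeff (j : ℕ) := by
    rw [finsetSum_coeff, Finset.sum_eq_single j]
    · rw [coeff_C_mul]
    · intro i _ hij
      rw [coeff_C_mul]
      by_cases hvi : v i = 0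
      · simp [hvi]
      · have hle : (i : ℕ) ≤ j := hjmax i (by simp [T, hvi])
        have hlt : (i : ℕ) < j := lt_of_le_of_ne hle (fun h => hij (Fin.ext h))
        rw [coeff_eq_zero_of_natDegree_lt (by rw [bin_natDegree]; exact hlt), mul_zero]
    · intro h; exact absurd (Finset.mem_univ _) h
  rw [hsum, coeff_zero] at hcoeff
  have hlead : (bin j).coeff (j : ℕ) ≠ 0 := by
    have : (bin j).coeff (j : ℕ) = (bin j).leadingCoeff := by
      rw [leadingCoeff, bin_natDegree]
    rw [this, leadingCoeff_ne_zero]
    intro h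
    have h0 : (((j : ℕ).factorial : ℝ)⁻¹) ≠ 0 := inv_ne_zero (by exact_mod_cast Nat.factorial_ne_zero _)
    rw [bin] at h
    rcases mul_eq_zero.mp h with h1 | h1
    · exact h0 (C_eq_zero.mp h1)
    · exact (monic_descPochhammer ℝ (j : ℕ)).ne_zero h1
  have hvj : (v j : ℝ) ≠ 0 := by exact_mod_cast hj
  exact (mul_ne_zero hvj hlead) hcoeff.symm

/-- integer values at integers: `descPochhammer_eval_eq_descFactorial` for naturals, and
`Ring.choose`/`Ring.descPochhammer_eq_factorial_smul_choose` (with `Polynomial.eval` and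
`Int.cast`) for integers. -/
theorem bin_eval_int (i : ℕ) (j : ℤ) : ∃ u : ℤ, (bin i).eval (j : ℝ) = u := by
  refine ⟨Ring.choose j i, ?_⟩
  have h1 := Ring.descPochhammer_eq_factorial_smul_choose j i
  have h2 : ((descPochhammer ℤ i).smeval j) = (descPochhammer ℤ i).eval j := by
    rw [Polynomial.eval_eq_smeval]
  have h3 : (descPochhammer ℝ i).eval (j : ℝ) = (((descPochhammer ℤ i).eval j : ℤ) : ℝ) := by
    rw [← descPochhammer_map (Int.castRingHom ℝ) i, eval_map]
    exact eval₂_at_apply (Int.castRingHom ℝ) j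
  rw [bin, eval_mul, eval_C, h3, ← h2, h1]
  have h0 : (i.factorial : ℝ) ≠ 0 := by exact_mod_cast i.factorial_ne_zero
  rw [nsmul_eq_mul]
  push_cast
  field_simp

/-- coefficient bound: for `0 ≤ M` natural, `∑_{l ≤ d} |coeff_l| M^l ≤ C(M + i - 1, i)` for every
`d`.  Proof by induction on `i`, for `descPochhammer ℝ i`: if `W p := ∑_{l ≤ d} |p_l| M^l`
(any `d ≥ natDegree`; extra coefficients vanish) then
`W (p * (X - C i)) ≤ W p * (M + i)` because the coefficient of `X^l` in `p (X - i)` is
`p_{l-1} - i p_l`; `descPochhammer ℝ (i+1) = descPochhammer ℝ i * (X - C i)`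
(`descPochhammer_succ_right`), so `W ≤ M (M+1) ⋯ (M+i-1) = Nat.ascFactorial M i`, and
`ascFactorial = i! * choose (M + i - 1) i` (`Nat.ascFactorial_eq_factorial_mul_choose'`). -/
theorem bin_coeff_sum (i d M : ℕ) :
    ∑ l ∈ Finset.range (d + 1), |(bin i).coeff l| * (M : ℝ) ^ l ≤ ((M + i - 1).choose i : ℝ) := by
  have key : ∀ i : ℕ, ∀ D : ℕ, ∑ l ∈ Finset.range (D + 1), |(descPochhammer ℝ i).coeff l| * (M : ℝ) ^ l
      ≤ (M.ascFactorial i : ℝ) := by
    intro i
    induction i with
    | zero =>
      intro D
      simp only [descPochhammer_zero, Nat.ascFactorial_zero, Nat.cast_one]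
      rw [Finset.sum_eq_single 0]
      · simp
      · intro l _ hl
        rw [coeff_one]; simp [hl]
      · intro h; exact absurd (Finset.mem_range.mpr (Nat.succ_pos _)) h
    | succ i ih =>
      intro D
      rw [descPochhammer_succ_right, Nat.ascFactorial_succ]
      push_cast
      have hc : ∀ l, |(descPochhammer ℝ i * (X - (i : ℝ[X]))).coeff l|
          ≤ (if l = 0 then 0 else |(descPochhammer ℝ i).coeff (l - 1)|)
            + (i : ℝ) * |(descPochhammer ℝ i).coeff l| := by
        intro l
        have e : (descPochhammer ℝ i * (X - (i : ℝ[X]))).coeff l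
            = (if l = 0 then 0 else (descPochhammer ℝ i).coeff (l - 1))
              - (descPochhammer ℝ i).coeff l * (i : ℝ) := by
          rw [mul_sub, coeff_sub]
          congr 1
          · cases l with
            | zero => simp
            | succ l => simp [coeff_mul_X]
          · rw [← C_eq_natCast, coeff_mul_C]
        rw [e]
        refine (abs_sub _ _).trans ?_
        rw [abs_mul, abs_of_nonneg (Nat.cast_nonneg i : (0 : ℝ) ≤ i), mul_comm (|(descPochhammer ℝ i).coeff l|)]
        split_ifs
        · simp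
        · exact le_rfl
      have hM0 : (0 : ℝ) ≤ M := Nat.cast_nonneg _
      have hi0 : (0 : ℝ) ≤ i := Nat.cast_nonneg _
      calc ∑ l ∈ Finset.range (D + 1), |(descPochhammer ℝ i * (X - (i : ℝ[X]))).coeff l| * (M : ℝ) ^ l
          ≤ ∑ l ∈ Finset.range (D + 1), ((if l = 0 then 0 else |(descPochhammer ℝ i).coeff (l - 1)|)
            + (i : ℝ) * |(descPochhammer ℝ i).coeff l|) * (M : ℝ) ^ l := by
            apply Finset.sum_le_sum; intro l _
            exact mul_le_mul_of_nonneg_right (hc l) (pow_nonneg hM0 _)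
        _ = (∑ l ∈ Finset.range (D + 1), (if l = 0 then 0 else |(descPochhammer ℝ i).coeff (l - 1)|) * (M : ℝ) ^ l)
            + (i : ℝ) * ∑ l ∈ Finset.range (D + 1), |(descPochhammer ℝ i).coeff l| * (M : ℝ) ^ l := by
            rw [Finset.mul_sum, ← Finset.sum_add_distrib]
            refine Finset.sum_congr rfl fun l _ => by ring
        _ ≤ (M : ℝ) * (M.ascFactorial i : ℝ) + (i : ℝ) * (M.ascFactorial i : ℝ) := by
            gcongr
            · rw [Finset.sum_range_succ']
              simp only [Nat.add_eq_zero_iff, one_ne_zero, and_false, if_false, Nat.add_sub_cancel,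
                if_true, zero_mul, add_zero]
              calc ∑ k ∈ Finset.range D, |(descPochhammer ℝ i).coeff k| * (M : ℝ) ^ (k + 1)
                  = (M : ℝ) * ∑ k ∈ Finset.range D, |(descPochhammer ℝ i).coeff k| * (M : ℝ) ^ k := by
                    rw [Finset.mul_sum]
                    refine Finset.sum_congr rfl fun l _ => by ring
                _ ≤ (M : ℝ) * ∑ k ∈ Finset.range (D + 1), |(descPochhammer ℝ i).coeff k| * (M : ℝ) ^ k := by
                    apply mul_le_mul_of_nonneg_left _ hM0
                    apply Finset.sum_le_sum_of_subset_of_nonneg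
                    · exact Finset.range_mono (Nat.le_succ _)
                    · intro l _ _; positivity
                _ ≤ (M : ℝ) * (M.ascFactorial i : ℝ) := mul_le_mul_of_nonneg_left (ih D) hM0
            · exact ih D
        _ = ((M : ℝ) + i) * (M.ascFactorial i : ℝ) := by ring
  have h0 : (0 : ℝ) < (i.factorial : ℝ) := by exact_mod_cast i.factorial_pos
  have e : ∀ l, |(bin i).coeff l| * (M : ℝ) ^ l
      = ((i.factorial : ℝ)⁻¹) * (|(descPochhammer ℝ i).coeff l| * (M : ℝ) ^ l) := by
    intro l
    rw [bin, coeff_C_mul, abs_mul, abs_of_pos (inv_pos.mpr h0)]; ring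
  rw [Finset.sum_congr rfl fun l _ => e l, ← Finset.mul_sum]
  have h2 : ((M + i - 1).choose i : ℝ) = ((i.factorial : ℝ)⁻¹) * (M.ascFactorial i : ℝ) := by
    have : M.ascFactorial i = i.factorial * (M + i - 1).choose i := Nat.ascFactorial_eq_factorial_mul_choose' M i
    rw [this]; push_cast
    field_simp
  rw [h2]
  exact mul_le_mul_of_nonneg_left (key i d) (inv_pos.mpr h0).le

end Pool.Agent.RSD
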