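import Mathlib

set_option autoImplicit false

/-! # [RSD-A3] the size of the binomial sum -/

namespace Pool.Agent.RSD

theorem a3_hockey (M k : ℕ) (hM : 1 ≤ M) :
    ∑ i ∈ Finset.range (k + 1), (M + i - 1).choose i = (M + k).choose k := by
  induction k with
  | zero => simp
  | succ k ih =>
    rw [Finset.sum_range_succ, ih]
    have e1 : M + (k + 1) - 1 = M + k := by omega
    rw [e1, show M + (k + 1) = (M + k) + 1 by ring, Nat.choose_succ_succ]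

/-- **[RSD-A3]** With `M = h m`, `h ≥ 2`, `m ≥ 1`: `∑_{i < 2m} C(M + i - 1, i) ≤ (16 h²)^m`.

Proof. `∑_{i < 2m} C(M + i - 1, i) ≤ C(M + 2m - 1, 2m - 1)` (hockey stick, `M ≥ 1`; by induction on
the number of terms: `∑_{i < k+1} C(M - 1 + i, i) = C(M + k, k)`), and this is
`≤ C(M + 2m, 2m) ≤ (M + 2m)^(2m) / (2m)!` (`Nat.choose_le_pow_div`).  With
`k = 2m`: `k^k / k! ≤ exp k` (`Real.pow_div_factorial_le_exp`), so
`(M+2m)^k/k! = ((M+2m)/k)^k * (k^k/k!) ≤ (((h+2)/2) * exp 1)^(2m) ≤ (h * 2.7182818286)^(2m)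
≤ (16 h^2)^m` since `(h+2)/2 ≤ h` and `exp 1 ^ 2 < 16` (`Real.exp_one_lt_d9`). -/
theorem sum_choose_le (m h : ℕ) (hm : 1 ≤ m) (hh : 2 ≤ h) :
    ∑ i ∈ Finset.range (2 * m), ((h * m + i - 1).choose i : ℝ) ≤ (16 * (h : ℝ) ^ 2) ^ m := by
  set M : ℕ := h * m with hMdef
  have hM : 1 ≤ M := Nat.one_le_iff_ne_zero.mpr (by positivity)
  have hk : 2 * m = (2 * m - 1) + 1 := by omega
  have h1 : ∑ i ∈ Finset.range (2 * m), ((M + i - 1).choose i : ℝ)
      = ((M + (2 * m - 1)).choose (2 * m - 1) : ℝ) := by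
    have := a3_hockey M (2 * m - 1) hM
    rw [← hk] at this
    exact_mod_cast this
  rw [h1]
  have h2 : ((M + (2 * m - 1)).choose (2 * m - 1) : ℝ) ≤ ((M + 2 * m).choose (2 * m) : ℝ) := by
    have e : (M + 2 * m).choose (2 * m)
        = (M + (2 * m - 1)).choose (2 * m - 1) + (M + (2 * m - 1)).choose (2 * m) := by
      have : M + 2 * m = (M + (2 * m - 1)) + 1 := by omega
      rw [this]
      conv_lhs => rw [hk]
      rw [Nat.choose_succ_succ, Nat.succ_eq_add_one, ← hk]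
    rw [e]; push_cast
    have : (0 : ℝ) ≤ ((M + (2 * m - 1)).choose (2 * m) : ℝ) := Nat.cast_nonneg _
    linarith
  refine h2.trans ?_
  have h3 : ((M + 2 * m).choose (2 * m) : ℝ) ≤ ((M + 2 * m : ℕ) : ℝ) ^ (2 * m) / ((2 * m).factorial : ℝ) :=
    Nat.choose_le_pow_div (2 * m) (M + 2 * m)
  refine h3.trans ?_
  have hmR : (1 : ℝ) ≤ m := by exact_mod_cast hm
  have hhR : (2 : ℝ) ≤ h := by exact_mod_cast hh
  have h4 : ((2 * m : ℕ) : ℝ) ^ (2 * m) / ((2 * m).factorial : ℝ) ≤ Real.exp ((2 * m : ℕ) : ℝ) :=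
    Real.pow_div_factorial_le_exp _ (Nat.cast_nonneg _) _
  have h5 : ((M + 2 * m : ℕ) : ℝ) ≤ (h : ℝ) * ((2 * m : ℕ) : ℝ) := by
    rw [hMdef]; push_cast
    nlinarith
  have h6 : ((M + 2 * m : ℕ) : ℝ) ^ (2 * m) / ((2 * m).factorial : ℝ)
      ≤ (h : ℝ) ^ (2 * m) * Real.exp ((2 * m : ℕ) : ℝ) := by
    calc ((M + 2 * m : ℕ) : ℝ) ^ (2 * m) / ((2 * m).factorial : ℝ)
        ≤ ((h : ℝ) * ((2 * m : ℕ) : ℝ)) ^ (2 * m) / ((2 * m).factorial : ℝ) := by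
          gcongr
      _ = (h : ℝ) ^ (2 * m) * (((2 * m : ℕ) : ℝ) ^ (2 * m) / ((2 * m).factorial : ℝ)) := by
          rw [mul_pow, mul_div_assoc]
      _ ≤ (h : ℝ) ^ (2 * m) * Real.exp ((2 * m : ℕ) : ℝ) := by
          apply mul_le_mul_of_nonneg_left h4 (by positivity)
  refine h6.trans ?_
  have h7 : Real.exp ((2 * m : ℕ) : ℝ) = (Real.exp 1 ^ 2) ^ m := by
    rw [← pow_mul, ← Real.exp_nat_mul]; simp
  rw [h7, pow_mul, ← mul_pow]
  apply pow_le_pow_left₀ (by positivity)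
  have h8 : Real.exp 1 ^ 2 ≤ 16 := by
    have := Real.exp_one_lt_d9
    have h0 := Real.exp_pos 1
    nlinarith
  nlinarith [sq_nonneg (h : ℝ)]

end Pool.Agent.RSD
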