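import Mathlib
import Pool.Agent.RSD.A.A2

set_option autoImplicit false

/-! # [RSD-A4] scaled Taylor coefficients of `b_i` and `b_i f` -/

open Polynomial

namespace Pool.Agent.RSD

/-- scaled coefficient of `x^k` in the product of the polynomial `p` and the power series
`∑ β_k x^k` -/
noncomputable def pcoef (p : ℝ[X]) (β : ℕ → ℝ) (k : ℕ) : ℝ :=
  ∑ l ∈ Finset.range (k + 1), p.coeff l * β (k - l)

/-- Cauchy product: for `|x| < R`, `|β_k| ≤ C / R^k`, the series `∑ pcoef p β k x^k` converges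
absolutely with sum `p(x) f(x)`.  (`HasSum.mul_of_...`: both series are absolutely summable;
`summable_norm_sum_mul_range_of_summable_norm`, `tsum_mul_tsum_eq_tsum_sum_range_of_summable_norm`;
the polynomial is the finitely supported series `∑ coeff_l x^l` (`Polynomial.eval_eq_sum_range`
or `hasSum_sum_of_ne_finset_zero`).) -/
theorem hasSum_pcoef (p : ℝ[X]) (β : ℕ → ℝ) (C R x y : ℝ) (hR : 0 < R)
    (hβ : ∀ k, |β k| ≤ C / R ^ k) (hx : |x| < R) (hy : HasSum (fun k => β k * x ^ k) y) :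
    HasSum (fun k => pcoef p β k * x ^ k) (p.eval x * y) := by
  have hC : 0 ≤ C := by
    have := (abs_nonneg _).trans (hβ 0)
    simpa using this
  -- polynomial as a finitely supported series
  have hp : HasSum (fun k => p.coeff k * x ^ k) (p.eval x) := by
    rw [eval_eq_sum_range]
    apply hasSum_sum_of_ne_finset_zero
    intro b hb
    rw [Finset.mem_range, not_lt] at hb
    rw [coeff_eq_zero_of_natDegree_lt (by omega), zero_mul]
  have hpn : Summable (fun k => ‖p.coeff k * x ^ k‖) := by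
    apply summable_of_ne_finset_zero (s := Finset.range (p.natDegree + 1))
    intro b hb
    rw [Finset.mem_range, not_lt] at hb
    rw [coeff_eq_zero_of_natDegree_lt (by omega), zero_mul, norm_zero]
  have hbn : Summable (fun k => ‖β k * x ^ k‖) := by
    have hr : |x| / R < 1 := (div_lt_one hR).mpr hx
    have hr0 : 0 ≤ |x| / R := by positivity
    refine Summable.of_nonneg_of_le (fun k => norm_nonneg _) (fun k => ?_)
      ((summable_geometric_of_lt_one hr0 hr).mul_left C)
    rw [Real.norm_eq_abs, abs_mul, abs_pow]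
    calc |β k| * |x| ^ k ≤ C / R ^ k * |x| ^ k := by
          apply mul_le_mul_of_nonneg_right (hβ k) (by positivity)
      _ = C * (|x| / R) ^ k := by rw [div_pow]; ring
  have hcauchy := tsum_mul_tsum_eq_tsum_sum_range_of_summable_norm hpn hbn
  have hsn := summable_norm_sum_mul_range_of_summable_norm hpn hbn
  have e : ∀ k, pcoef p β k * x ^ k
      = ∑ l ∈ Finset.range (k + 1), (p.coeff l * x ^ l) * (β (k - l) * x ^ (k - l)) := by
    intro k
    rw [pcoef, Finset.sum_mul]
    refine Finset.sum_congr rfl fun l hl => ?_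
    have hlk : l ≤ k := Nat.lt_succ_iff.mp (Finset.mem_range.mp hl)
    have : x ^ k = x ^ l * x ^ (k - l) := by rw [← pow_add]; congr 1; omega
    rw [this]; ring
  have hs : Summable (fun k => pcoef p β k * x ^ k) := by
    have := hsn.of_norm
    refine this.congr fun k => (e k).symm
  have ht : ∑' k, pcoef p β k * x ^ k = p.eval x * y := by
    rw [tsum_congr e, ← hcauchy, hp.tsum_eq, hy.tsum_eq]
  rw [← ht]
  exact hs.hasSum

/-- crude bound of the scaled coefficient: `|pcoef (bin i) β k| M^k ≤ C * C(M+i-1, i)` when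
`M ≤ R` (each `|β_j| M^j ≤ C`; then `bin_coeff_sum`). -/
theorem pcoef_bin_le (i k M : ℕ) (β : ℕ → ℝ) (C R : ℝ) (hC : 0 ≤ C) (hR : 0 < R)
    (hβ : ∀ k, |β k| ≤ C / R ^ k) (hM : (M : ℝ) ≤ R) :
    |pcoef (bin i) β k| * (M : ℝ) ^ k ≤ C * ((M + i - 1).choose i : ℝ) := by
  have hM0 : (0 : ℝ) ≤ M := Nat.cast_nonneg _
  have hb : ∀ j, |β j| * (M : ℝ) ^ j ≤ C := by
    intro j
    calc |β j| * (M : ℝ) ^ j ≤ C / R ^ j * (M : ℝ) ^ j :=
          mul_le_mul_of_nonneg_right (hβ j) (by positivity)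
      _ ≤ C / R ^ j * R ^ j := by
          apply mul_le_mul_of_nonneg_left _ (by positivity)
          exact pow_le_pow_left₀ hM0 hM j
      _ = C := by field_simp
  calc |pcoef (bin i) β k| * (M : ℝ) ^ k
      ≤ (∑ l ∈ Finset.range (k + 1), |(bin i).coeff l * β (k - l)|) * (M : ℝ) ^ k := by
        apply mul_le_mul_of_nonneg_right _ (by positivity)
        exact Finset.abs_sum_le_sum_abs _ _
    _ = ∑ l ∈ Finset.range (k + 1), (|(bin i).coeff l| * (M : ℝ) ^ l) * (|β (k - l)| * (M : ℝ) ^ (k - l)) := by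
        rw [Finset.sum_mul]
        refine Finset.sum_congr rfl fun l hl => ?_
        have hlk : l ≤ k := Nat.lt_succ_iff.mp (Finset.mem_range.mp hl)
        have : (M : ℝ) ^ k = (M : ℝ) ^ l * (M : ℝ) ^ (k - l) := by rw [← pow_add]; congr 1; omega
        rw [this, abs_mul]; ring
    _ ≤ ∑ l ∈ Finset.range (k + 1), (|(bin i).coeff l| * (M : ℝ) ^ l) * C := by
        apply Finset.sum_le_sum; intro l _
        exact mul_le_mul_of_nonneg_left (hb _) (by positivity)
    _ = C * ∑ l ∈ Finset.range (k + 1), |(bin i).coeff l| * (M : ℝ) ^ l := by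
        rw [← Finset.sum_mul]; ring
    _ ≤ C * ((M + i - 1).choose i : ℝ) := mul_le_mul_of_nonneg_left (bin_coeff_sum i k M) hC

/-- tail bound: `|pcoef (bin i) β k| M^k ≤ C * C(M+i-1, i) (M/R)^(k - i)` for `k ≥ i`
(only `l ≤ i = natDegree` contribute and then `k - l ≥ k - i`, `M / R ≤ 1`). -/
theorem pcoef_bin_tail (i k M : ℕ) (β : ℕ → ℝ) (C R : ℝ) (hC : 0 ≤ C) (hR : 0 < R)
    (hβ : ∀ k, |β k| ≤ C / R ^ k) (hM : (M : ℝ) ≤ R) (hk : i ≤ k) :
    |pcoef (bin i) β k| * (M : ℝ) ^ k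
      ≤ C * ((M + i - 1).choose i : ℝ) * ((M : ℝ) / R) ^ (k - i) := by
  have hM0 : (0 : ℝ) ≤ M := Nat.cast_nonneg _
  have hx0 : 0 ≤ (M : ℝ) / R := by positivity
  have hx1 : (M : ℝ) / R ≤ 1 := (div_le_one hR).mpr hM
  have hb : ∀ j, |β j| * (M : ℝ) ^ j ≤ C * ((M : ℝ) / R) ^ j := by
    intro j
    calc |β j| * (M : ℝ) ^ j ≤ C / R ^ j * (M : ℝ) ^ j :=
          mul_le_mul_of_nonneg_right (hβ j) (by positivity)
      _ = C * ((M : ℝ) / R) ^ j := by rw [div_pow]; ring
  have h1 : ∀ l ∈ Finset.range (k + 1), (|(bin i).coeff l| * (M : ℝ) ^ l) * (|β (k - l)| * (M : ℝ) ^ (k - l))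
      ≤ (|(bin i).coeff l| * (M : ℝ) ^ l) * (C * ((M : ℝ) / R) ^ (k - i)) := by
    intro l hl
    by_cases hli : l ≤ i
    · apply mul_le_mul_of_nonneg_left _ (by positivity)
      refine (hb _).trans ?_
      apply mul_le_mul_of_nonneg_left _ hC
      exact pow_le_pow_of_le_one hx0 hx1 (by omega)
    · have : (bin i).coeff l = 0 := by
        apply coeff_eq_zero_of_natDegree_lt
        rw [bin_natDegree]; omega
      simp [this]
  calc |pcoef (bin i) β k| * (M : ℝ) ^ k
      ≤ (∑ l ∈ Finset.range (k + 1), |(bin i).coeff l * β (k - l)|) * (M : ℝ) ^ k := by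
        apply mul_le_mul_of_nonneg_right _ (by positivity)
        exact Finset.abs_sum_le_sum_abs _ _
    _ = ∑ l ∈ Finset.range (k + 1), (|(bin i).coeff l| * (M : ℝ) ^ l) * (|β (k - l)| * (M : ℝ) ^ (k - l)) := by
        rw [Finset.sum_mul]
        refine Finset.sum_congr rfl fun l hl => ?_
        have hlk : l ≤ k := Nat.lt_succ_iff.mp (Finset.mem_range.mp hl)
        have : (M : ℝ) ^ k = (M : ℝ) ^ l * (M : ℝ) ^ (k - l) := by rw [← pow_add]; congr 1; omega
        rw [this, abs_mul]; ring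
    _ ≤ ∑ l ∈ Finset.range (k + 1), (|(bin i).coeff l| * (M : ℝ) ^ l) * (C * ((M : ℝ) / R) ^ (k - i)) :=
        Finset.sum_le_sum h1
    _ = (C * ((M : ℝ) / R) ^ (k - i)) * ∑ l ∈ Finset.range (k + 1), |(bin i).coeff l| * (M : ℝ) ^ l := by
        rw [← Finset.sum_mul]; ring
    _ ≤ (C * ((M : ℝ) / R) ^ (k - i)) * ((M + i - 1).choose i : ℝ) :=
        mul_le_mul_of_nonneg_left (bin_coeff_sum i k M) (by positivity)
    _ = C * ((M + i - 1).choose i : ℝ) * ((M : ℝ) / R) ^ (k - i) := by ring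

end Pool.Agent.RSD
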