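import Mathlib

set_option autoImplicit false

/-! # [RSD-A5] arithmetic of the parameters of the pigeonhole argument -/

namespace Pool.Agent.RSD

/-- **[RSD-A5]** Choice of the height `A`.  Here `S = (1 + C) S₀` with `S₀ ≤ (16 h²)^m`,
`ε = 1/(6 m 2^m)`, `A = ⌊(S/ε)³⌋`.  Claims: the pigeonhole inequality for `K = 3m`, `U = 4m`, and the
smallness of the tail.

Proof. `S/ε = 6 m 2^m S ≥ 1` (`S ≥ 1`), `A + 1 > (S/ε)³` and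
`A S/ε + 1 ≤ (A + 1) (S/ε)`, so `(A S/ε + 1)³ ≤ (A+1)³ (S/ε)³ < (A+1)⁴`; raise to the power `m ≥ 1`.
`A ≤ (S/ε)³ ≤ (6 (1+C) (64 h²)^m)³ = 216 (1+C)³ (2^18 h^6)^m` using `m ≤ 2^m`.  With
`x = M/R ≤ 1/(2^33 h^8 (1+C)^4)`:
`4 A C S₀ x^(m+1) 2^m ≤ 864 (1+C)^4 (2^18 h^6 · 16 h² · 2)^m x^(m+1)
 = 864 (1+C)^4 (2^23 h^8 x)^m x ≤ 864 (1+C)^4 x ≤ 864 / 2^33 ≤ 1`. -/
theorem param_height (m h : ℕ) (hm : 1 ≤ m) (hh : 2 ≤ h) (C S0 x : ℝ) (hC : 1 ≤ C)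
    (hS0 : 1 ≤ S0) (hS0' : S0 ≤ (16 * (h : ℝ) ^ 2) ^ m) (hx0 : 0 ≤ x)
    (hx : x ≤ 1 / (2 ^ 33 * (h : ℝ) ^ 8 * (1 + C) ^ 4)) :
    ∃ A : ℕ, ((A : ℝ) * ((1 + C) * S0) / (1 / (6 * m * 2 ^ m)) + 1) ^ (3 * m)
        < ((A : ℝ) + 1) ^ (4 * m)
      ∧ 4 * (A : ℝ) * C * S0 * x ^ (m + 1) * 2 ^ m ≤ 1 := by
  have hmR : (1 : ℝ) ≤ m := by exact_mod_cast hm
  have hhR : (2 : ℝ) ≤ h := by exact_mod_cast hh
  set S : ℝ := (1 + C) * S0 with hS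
  have hS1 : 1 ≤ S := by rw [hS]; nlinarith
  set y : ℝ := S / (1 / (6 * m * 2 ^ m)) with hy
  have hy' : y = 6 * m * 2 ^ m * S := by rw [hy]; field_simp
  have h2m : (1 : ℝ) ≤ 2 ^ m := one_le_pow₀ (by norm_num)
  have hmm : (m : ℝ) ≤ 2 ^ m := by
    have : m < 2 ^ m := Nat.lt_two_pow_self
    exact_mod_cast this.le
  have hy1 : 1 ≤ y := by
    rw [hy']
    have : (1 : ℝ) ≤ 6 * m * 2 ^ m := by nlinarith
    nlinarith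
  have hy0 : 0 ≤ y := by linarith
  refine ⟨⌊y ^ 3⌋₊, ?_, ?_⟩
  · set A : ℝ := (⌊y ^ 3⌋₊ : ℝ) with hA
    have hA1 : y ^ 3 < A + 1 := Nat.lt_floor_add_one _
    have hA0 : 0 ≤ A := Nat.cast_nonneg _
    have e1 : A * S / (1 / (6 * m * 2 ^ m)) = A * y := by rw [hy]; ring
    rw [e1]
    have e2 : A * y + 1 ≤ (A + 1) * y := by nlinarith
    have e3 : (A * y + 1) ^ 3 < (A + 1) ^ 4 := by
      calc (A * y + 1) ^ 3 ≤ ((A + 1) * y) ^ 3 := by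
            apply pow_le_pow_left₀ (by positivity) e2
        _ = (A + 1) ^ 3 * y ^ 3 := by ring
        _ < (A + 1) ^ 3 * (A + 1) := by
            apply mul_lt_mul_of_pos_left hA1 (by positivity)
        _ = (A + 1) ^ 4 := by ring
    rw [pow_mul, pow_mul]
    exact pow_lt_pow_left₀ e3 (by positivity) (by omega)
  · set A : ℝ := (⌊y ^ 3⌋₊ : ℝ) with hA
    have hA2 : A ≤ y ^ 3 := Nat.floor_le (by positivity)
    have hA0 : 0 ≤ A := Nat.cast_nonneg _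
    have hyb : y ≤ 6 * (1 + C) * (64 * (h : ℝ) ^ 2) ^ m := by
      rw [hy', hS]
      have e : (64 * (h : ℝ) ^ 2) ^ m = 2 ^ m * 2 ^ m * (16 * (h : ℝ) ^ 2) ^ m := by
        rw [← mul_pow, ← mul_pow]; congr 1; ring
      rw [e]
      calc 6 * (m : ℝ) * 2 ^ m * ((1 + C) * S0)
          ≤ 6 * 2 ^ m * 2 ^ m * ((1 + C) * (16 * (h : ℝ) ^ 2) ^ m) := by
            gcongr
        _ = 6 * (1 + C) * (2 ^ m * 2 ^ m * (16 * (h : ℝ) ^ 2) ^ m) := by ring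
    have hA3 : A ≤ 216 * (1 + C) ^ 3 * (2 ^ 18 * (h : ℝ) ^ 6) ^ m := by
      calc A ≤ y ^ 3 := hA2
        _ ≤ (6 * (1 + C) * (64 * (h : ℝ) ^ 2) ^ m) ^ 3 := pow_le_pow_left₀ hy0 hyb 3
        _ = 216 * (1 + C) ^ 3 * (2 ^ 18 * (h : ℝ) ^ 6) ^ m := by
            rw [mul_pow, mul_pow, ← pow_mul, mul_comm m 3, pow_mul]
            congr 1
            · norm_num
            · congr 1; ring
    have hx1 : x ≤ 1 := by
      refine hx.trans ?_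
      rw [div_le_one (by positivity)]
      have : (1 : ℝ) ≤ (h : ℝ) ^ 8 := one_le_pow₀ (by linarith)
      have : (1 : ℝ) ≤ (1 + C) ^ 4 := one_le_pow₀ (by linarith)
      calc (1 : ℝ) = 1 * 1 * 1 := by norm_num
        _ ≤ 2 ^ 33 * (h : ℝ) ^ 8 * (1 + C) ^ 4 := by gcongr; norm_num
    have hxx : 2 ^ 33 * (h : ℝ) ^ 8 * (1 + C) ^ 4 * x ≤ 1 := by
      have := mul_le_mul_of_nonneg_left hx
        (show (0 : ℝ) ≤ 2 ^ 33 * (h : ℝ) ^ 8 * (1 + C) ^ 4 by positivity)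
      refine this.trans (le_of_eq ?_)
      field_simp
    have hC4 : (1 : ℝ) ≤ (1 + C) ^ 4 := one_le_pow₀ (by linarith)
    have hh8 : (1 : ℝ) ≤ (h : ℝ) ^ 8 := one_le_pow₀ (by linarith)
    have hz : 2 ^ 23 * (h : ℝ) ^ 8 * x ≤ 1 := by
      calc 2 ^ 23 * (h : ℝ) ^ 8 * x = 2 ^ 23 * (h : ℝ) ^ 8 * 1 * x := by ring
        _ ≤ 2 ^ 33 * (h : ℝ) ^ 8 * (1 + C) ^ 4 * x := by
            gcongr <;> norm_num
        _ ≤ 1 := hxx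
    have hz0 : 0 ≤ 2 ^ 23 * (h : ℝ) ^ 8 * x := by positivity
    have hzm : (2 ^ 23 * (h : ℝ) ^ 8 * x) ^ m ≤ 1 := pow_le_one₀ hz0 hz
    calc 4 * A * C * S0 * x ^ (m + 1) * 2 ^ m
        ≤ 4 * (216 * (1 + C) ^ 3 * (2 ^ 18 * (h : ℝ) ^ 6) ^ m) * (1 + C)
            * ((16 * (h : ℝ) ^ 2) ^ m) * x ^ (m + 1) * 2 ^ m := by
          gcongr
          linarith
      _ = 864 * (1 + C) ^ 4 * (2 ^ 23 * (h : ℝ) ^ 8 * x) ^ m * x := by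
          have e : (2 ^ 23 * (h : ℝ) ^ 8 * x) ^ m
              = (2 ^ 18 * (h : ℝ) ^ 6) ^ m * (16 * (h : ℝ) ^ 2) ^ m * 2 ^ m * x ^ m := by
            rw [← mul_pow, ← mul_pow, ← mul_pow]; congr 1; ring
          rw [e]; ring
      _ ≤ 864 * (1 + C) ^ 4 * 1 * x := by gcongr
      _ ≤ 2 ^ 33 * (h : ℝ) ^ 8 * (1 + C) ^ 4 * x := by
          have : (864 : ℝ) ≤ 2 ^ 33 * (h : ℝ) ^ 8 := by nlinarith
          have h0 : 0 ≤ (1 + C) ^ 4 * x := by positivity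
          nlinarith
      _ ≤ 1 := hxx

end Pool.Agent.RSD
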