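import Mathlib
import Pool.Agent.RSD.A.A1
import Pool.Agent.RSD.A.A3
import Pool.Agent.RSD.A.A4
import Pool.Agent.RSD.A.A5

set_option autoImplicit false

/-! # [RSD-A6] the auxiliary polynomials -/

open Polynomial

namespace Pool.Agent.RSD

/-- **[RSD-A6]** Auxiliary polynomials.  `f(x) = ∑ β_k x^k` with `|β_k| ≤ C / R^k`, and
`M = h m` small compared with `R`.  There are integer-valued polynomials `P, Q` of degree `< 2m`,
not both zero, with `|P(x) + Q(x) f(x)| < 2^{-m}` for `|x| ≤ h m`.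

Proof. `x₀ = (h m)/R`, so `M < R` and `x₀ ≤ 1/2`.  Unknowns: `w : Fin (4m) → ℤ`; identify
`Fin (4m)` with `Fin (2m) ⊕ Fin (2m)` (`finSumFinEquiv`, cast `2m + 2m = 4m`) and write
`P = ∑ w(inl i) bin i`, `Q = ∑ w(inr i) bin i`.  Rows `k < 3m`:
`t k (inl i) = (bin i).coeff k * M^k`, `t k (inr i) = pcoef (bin i) β k * M^k`.  The `ℓ¹` norms of
the rows are `≤ S₀ + C S₀` with `S₀ = ∑_{i<2m} C(M+i-1,i)` (`bin_coeff_sum` with `d = k`, one term
of a sum of nonnegative terms; `pcoef_bin_le`); `1 ≤ S₀ ≤ (16h²)^m` (`i = 0` term; `A3`).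
`param_height` and `pigeonhole_real` with `K = 3m`, `U = 4m`, `ε = 1/(6 m 2^m)` give `w`.  `P ≠ 0` or
`Q ≠ 0` by `bin_comb_ne_zero`.  Degrees: `natDegree_sum_le`-type, `bin_natDegree`.
Integer values: `bin_eval_int`.  For `|x| ≤ M` and `y` the sum of the series at `x`,
`P(x) + Q(x) y = ∑_k r_k x^k` (`HasSum`), `r_k = ∑_i w(inl i) (bin i).coeff k +
∑_i w(inr i) pcoef (bin i) β k`.  For `k < 3m`: `|r_k x^k| ≤ |r_k| M^k ≤ ε`, total
`≤ 3m ε = (1/2) 2^{-m}`.  For `k ≥ 3m` the first sum vanishes (degree `< 2m`) and by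
`pcoef_bin_tail` and `k - i ≥ k - 2m + 1`, `x₀ ≤ 1`:
`|r_k| M^k ≤ A C S₀ x₀^(k - 2m + 1)`; the sum over `k ≥ 3m` is
`≤ A C S₀ x₀^(m+1) / (1 - x₀) ≤ (1/4) 2^{-m} / (1 - x₀) < (1/2) 2^{-m}` by the second conclusion
of `param_height` (`x₀ < 1/2`). -/
theorem aux_polys (m h : ℕ) (hm : 1 ≤ m) (hh : 2 ≤ h) (C R : ℝ) (hC : 1 ≤ C) (hR : 0 < R)
    (hcond : ((h * m : ℕ) : ℝ) / R ≤ 1 / (2 ^ 33 * (h : ℝ) ^ 8 * (1 + C) ^ 4))
    (β : ℕ → ℝ) (hβ : ∀ k, |β k| ≤ C / R ^ k) :
    ∃ P Q : ℝ[X], P.natDegree < 2 * m ∧ Q.natDegree < 2 * m ∧ (P ≠ 0 ∨ Q ≠ 0) ∧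
      (∀ j : ℤ, ∃ u v : ℤ, P.eval (j : ℝ) = u ∧ Q.eval (j : ℝ) = v) ∧
      ∀ x y : ℝ, |x| ≤ ((h * m : ℕ) : ℝ) → HasSum (fun k => β k * x ^ k) y →
        |P.eval x + Q.eval x * y| < 1 / 2 ^ m := by
  classical
  set M : ℕ := h * m with hMdef
  have hM1 : 1 ≤ M := Nat.one_le_iff_ne_zero.mpr (by positivity)
  have hM0 : (0 : ℝ) < (M : ℝ) := by exact_mod_cast hM1
  set x0 : ℝ := (M : ℝ) / R with hx0def
  have hx0pos : 0 ≤ x0 := by positivity
  have hhR : (2 : ℝ) ≤ h := by exact_mod_cast hh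
  have hmR : (1 : ℝ) ≤ m := by exact_mod_cast hm
  have hx0half : x0 ≤ 1 / 4 := by
    refine hcond.trans ?_
    have h1 : (1 : ℝ) ≤ (h : ℝ) ^ 8 := one_le_pow₀ (by linarith)
    have h2 : (1 : ℝ) ≤ (1 + C) ^ 4 := one_le_pow₀ (by linarith)
    apply one_div_le_one_div_of_le (by norm_num)
    calc (4 : ℝ) = 4 * 1 * 1 := by norm_num
      _ ≤ 2 ^ 33 * (h : ℝ) ^ 8 * (1 + C) ^ 4 := by gcongr; norm_num
  have hMR : (M : ℝ) ≤ R := by
    have : (M : ℝ) / R ≤ 1 := hx0half.trans (by norm_num)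
    exact (div_le_one hR).mp this
  set S0 : ℝ := ∑ i ∈ Finset.range (2 * m), ((M + i - 1).choose i : ℝ) with hS0
  have hS0' : S0 ≤ (16 * (h : ℝ) ^ 2) ^ m := sum_choose_le m h hm hh
  have hS01 : 1 ≤ S0 := by
    rw [hS0]
    have h0 : (0 : ℕ) ∈ Finset.range (2 * m) := Finset.mem_range.mpr (by omega)
    refine le_trans ?_ (Finset.single_le_sum (f := fun i => ((M + i - 1).choose i : ℝ))
      (fun i _ => Nat.cast_nonneg _) h0)
    simp
  obtain ⟨A, hA1, hA2⟩ := param_height m h hm hh C S0 x0 hC hS01 hS0' hx0pos hcond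
  -- the matrix
  let ι := Fin (2 * m) ⊕ Fin (2 * m)
  let eq4 : Fin (4 * m) ≃ ι := (finCongr (by ring)).trans (finSumFinEquiv (m := 2 * m) (n := 2 * m)).symm
  let T : Fin (3 * m) → ι → ℝ := fun k u =>
    match u with
    | Sum.inl i => (bin i).coeff k * (M : ℝ) ^ (k : ℕ)
    | Sum.inr i => pcoef (bin i) β k * (M : ℝ) ^ (k : ℕ)
  let t : Fin (3 * m) → Fin (4 * m) → ℝ := fun k u => T k (eq4 u)
  have hsum4 : ∀ F : ι → ℝ, ∑ u : Fin (4 * m), F (eq4 u)
      = ∑ i : Fin (2 * m), F (Sum.inl i) + ∑ i : Fin (2 * m), F (Sum.inr i) := by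
    intro F
    rw [Equiv.sum_comp eq4 F, Fintype.sum_sum_type]
  have hfin : ∀ g : ℕ → ℝ, ∑ i : Fin (2 * m), g i = ∑ i ∈ Finset.range (2 * m), g i := by
    intro g; rw [Finset.sum_range]
  have hC0 : 0 ≤ C := by linarith
  have hrow : ∀ k, ∑ u, |t k u| ≤ (1 + C) * S0 := by
    intro k
    have e := hsum4 (fun u => |T k u|)
    change ∑ u, |T k (eq4 u)| ≤ _
    rw [e]
    have e1 : ∑ i : Fin (2 * m), |T k (Sum.inl i)| ≤ S0 := by
      rw [hS0, ← hfin (fun i => ((M + i - 1).choose i : ℝ))]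
      apply Finset.sum_le_sum; intro i _
      change |(bin i).coeff k * (M : ℝ) ^ (k : ℕ)| ≤ _
      rw [abs_mul, abs_of_nonneg (pow_nonneg hM0.le _)]
      refine le_trans ?_ (bin_coeff_sum (i : ℕ) (k : ℕ) M)
      exact Finset.single_le_sum (f := fun l => |(bin (i : ℕ)).coeff l| * (M : ℝ) ^ l)
        (fun l _ => by positivity) (Finset.mem_range.mpr (Nat.lt_succ_self _))
    have e2 : ∑ i : Fin (2 * m), |T k (Sum.inr i)| ≤ C * S0 := by
      rw [hS0, ← hfin (fun i => ((M + i - 1).choose i : ℝ)), Finset.mul_sum]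
      apply Finset.sum_le_sum; intro i _
      change |pcoef (bin i) β k * (M : ℝ) ^ (k : ℕ)| ≤ _
      rw [abs_mul, abs_of_nonneg (pow_nonneg hM0.le _)]
      exact pcoef_bin_le i k M β C R hC0 hR hβ hMR
    linarith
  obtain ⟨w, hw0, hwA, hwk⟩ := pigeonhole_real (3 * m) (4 * m) A ((1 + C) * S0)
    (1 / (6 * m * 2 ^ m)) (by positivity) (by positivity) t hrow hA1
  let W : ι → ℤ := fun u => w (eq4.symm u)
  have hWw : ∀ u, w u = W (eq4 u) := fun u => by simp [W]
  let P : ℝ[X] := ∑ i : Fin (2 * m), Polynomial.C (W (Sum.inl i) : ℝ) * bin i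
  let Q : ℝ[X] := ∑ i : Fin (2 * m), Polynomial.C (W (Sum.inr i) : ℝ) * bin i
  have hdeg : ∀ v : Fin (2 * m) → ℤ, (∑ i : Fin (2 * m), Polynomial.C (v i : ℝ) * bin i).natDegree < 2 * m := by
    intro v
    refine lt_of_le_of_lt (natDegree_sum_le_of_forall_le (n := 2 * m - 1) _ _ ?_) (by omega)
    intro i _
    refine (natDegree_C_mul_le _ _).trans ?_
    rw [bin_natDegree]
    have := i.2
    omega
  refine ⟨P, Q, hdeg _, hdeg _, ?_, ?_, ?_⟩
  · by_contra hcon
    push Not at hcon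
    apply hw0
    funext u
    rw [hWw u]
    have hl : (fun i => W (Sum.inl i)) = 0 := by
      by_contra hne
      exact bin_comb_ne_zero (2 * m) (fun i => W (Sum.inl i)) hne hcon.1
    have hr : (fun i => W (Sum.inr i)) = 0 := by
      by_contra hne
      exact bin_comb_ne_zero (2 * m) (fun i => W (Sum.inr i)) hne hcon.2
    rcases eq4 u with i | i
    · exact congrFun hl i
    · exact congrFun hr i
  · intro j
    choose c hc using fun i : ℕ => bin_eval_int i j
    refine ⟨∑ i : Fin (2 * m), W (Sum.inl i) * c i, ∑ i : Fin (2 * m), W (Sum.inr i) * c i, ?_, ?_⟩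
    · simp only [P, eval_finsetSum, eval_mul, eval_C]
      push_cast
      refine Finset.sum_congr rfl fun i _ => by rw [hc]
    · simp only [Q, eval_finsetSum, eval_mul, eval_C]
      push_cast
      refine Finset.sum_congr rfl fun i _ => by rw [hc]
  · intro x y hx hy
    -- the coefficients
    let r : ℕ → ℝ := fun k => ∑ i : Fin (2 * m), (W (Sum.inl i) : ℝ) * (bin i).coeff k
      + ∑ i : Fin (2 * m), (W (Sum.inr i) : ℝ) * pcoef (bin i) β k
    have hxR : |x| < R := by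
      refine lt_of_le_of_lt hx ?_
      have : (M : ℝ) / R < 1 := lt_of_le_of_lt hx0half (by norm_num)
      exact (div_lt_one hR).mp this
    have hbinsum : ∀ i : ℕ, HasSum (fun k => (bin i).coeff k * x ^ k) ((bin i).eval x) := by
      intro i
      rw [eval_eq_sum_range]
      apply hasSum_sum_of_ne_finset_zero
      intro b hb
      rw [Finset.mem_range, not_lt] at hb
      rw [coeff_eq_zero_of_natDegree_lt (by omega), zero_mul]
    have hS : HasSum (fun k => r k * x ^ k) (P.eval x + Q.eval x * y) := by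
      have s1 : HasSum (fun k => ∑ i : Fin (2 * m), (W (Sum.inl i) : ℝ) * ((bin i).coeff k * x ^ k))
          (∑ i : Fin (2 * m), (W (Sum.inl i) : ℝ) * (bin i).eval x) :=
        hasSum_sum fun i _ => (hbinsum i).mul_left _
      have s2 : HasSum (fun k => ∑ i : Fin (2 * m), (W (Sum.inr i) : ℝ) * (pcoef (bin i) β k * x ^ k))
          (∑ i : Fin (2 * m), (W (Sum.inr i) : ℝ) * ((bin i).eval x * y)) :=
        hasSum_sum fun i _ => (hasSum_pcoef (bin i) β C R x y hR hβ hxR hy).mul_left _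
      have s3 := s1.add s2
      have e1 : P.eval x + Q.eval x * y = (∑ i : Fin (2 * m), (W (Sum.inl i) : ℝ) * (bin i).eval x)
          + ∑ i : Fin (2 * m), (W (Sum.inr i) : ℝ) * ((bin i).eval x * y) := by
        simp only [P, Q, eval_finsetSum, eval_mul, eval_C]
        rw [Finset.sum_mul]
        congr 1
        refine Finset.sum_congr rfl fun i _ => by ring
      rw [e1]
      refine s3.congr_fun ?_ |> id
      intro k
      simp only [r]
      rw [add_mul, Finset.sum_mul, Finset.sum_mul]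
      congr 1 <;> refine Finset.sum_congr rfl fun i _ => by ring
    have hWA : ∀ u, |(W u : ℝ)| ≤ A := by
      intro u
      have := hwA (eq4.symm u)
      have h2 : |W u| ≤ (A : ℤ) := this
      exact_mod_cast h2
    have hMx : |x| ≤ (M : ℝ) := hx
    -- low coefficients
    have hlow : ∀ k ∈ Finset.range (3 * m), |r k * x ^ k| ≤ 1 / (6 * m * 2 ^ m) := by
      intro k hk
      have hk' : k < 3 * m := Finset.mem_range.mp hk
      have h1 := hwk ⟨k, hk'⟩
      have e1 : ∑ u, t ⟨k, hk'⟩ u * (w u : ℝ) = r k * (M : ℝ) ^ k := by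
        have e := hsum4 (fun u => T ⟨k, hk'⟩ u * (W u : ℝ))
        have e2 : ∑ u, t ⟨k, hk'⟩ u * (w u : ℝ) = ∑ u : Fin (4 * m), T ⟨k, hk'⟩ (eq4 u) * (W (eq4 u) : ℝ) := by
          refine Finset.sum_congr rfl fun u _ => by rw [hWw u]
        rw [e2, e]
        simp only [r, T]
        rw [add_mul, Finset.sum_mul, Finset.sum_mul]
        congr 1 <;> refine Finset.sum_congr rfl fun i _ => by ring
      rw [e1, abs_mul, abs_of_nonneg (pow_nonneg hM0.le k)] at h1
      rw [abs_mul, abs_pow]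
      refine le_trans ?_ h1
      apply mul_le_mul_of_nonneg_left _ (abs_nonneg _)
      exact pow_le_pow_left₀ (abs_nonneg x) hMx k
    -- high coefficients
    have hA0 : (0 : ℝ) ≤ A := Nat.cast_nonneg _
    have hhigh : ∀ k, |r (k + 3 * m) * x ^ (k + 3 * m)| ≤ (A : ℝ) * C * S0 * x0 ^ (m + 1) * x0 ^ k := by
      intro k
      set K : ℕ := k + 3 * m with hK
      have e1 : r K = ∑ i : Fin (2 * m), (W (Sum.inr i) : ℝ) * pcoef (bin i) β K := by
        simp only [r]
        rw [add_eq_right]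
        apply Finset.sum_eq_zero; intro i _
        rw [coeff_eq_zero_of_natDegree_lt, mul_zero]
        rw [bin_natDegree]; have := i.2; omega
      have e2 : |r K| * (M : ℝ) ^ K ≤ (A : ℝ) * C * S0 * x0 ^ (m + 1) * x0 ^ k := by
        rw [e1]
        calc |∑ i : Fin (2 * m), (W (Sum.inr i) : ℝ) * pcoef (bin i) β K| * (M : ℝ) ^ K
            ≤ (∑ i : Fin (2 * m), |(W (Sum.inr i) : ℝ) * pcoef (bin i) β K|) * (M : ℝ) ^ K :=
              mul_le_mul_of_nonneg_right (Finset.abs_sum_le_sum_abs _ _) (pow_nonneg hM0.le _)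
          _ = ∑ i : Fin (2 * m), |(W (Sum.inr i) : ℝ)| * (|pcoef (bin i) β K| * (M : ℝ) ^ K) := by
              rw [Finset.sum_mul]
              refine Finset.sum_congr rfl fun i _ => by rw [abs_mul]; ring
          _ ≤ ∑ i : Fin (2 * m), (A : ℝ) * (C * ((M + (i : ℕ) - 1).choose i : ℝ) * x0 ^ (m + 1 + k)) := by
              apply Finset.sum_le_sum; intro i _
              apply mul_le_mul (hWA _) _ (by positivity) hA0
              refine (pcoef_bin_tail i K M β C R hC0 hR hβ hMR (by have := i.2; omega)).trans ?_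
              apply mul_le_mul_of_nonneg_left _ (by positivity)
              apply pow_le_pow_of_le_one hx0pos (hx0half.trans (by norm_num))
              have := i.2; omega
          _ = (A : ℝ) * C * (∑ i : Fin (2 * m), ((M + (i : ℕ) - 1).choose i : ℝ)) * x0 ^ (m + 1 + k) := by
              rw [Finset.mul_sum, Finset.sum_mul]
              refine Finset.sum_congr rfl fun i _ => by ring
          _ = (A : ℝ) * C * S0 * x0 ^ (m + 1) * x0 ^ k := by
              rw [hS0, hfin (fun i => ((M + i - 1).choose i : ℝ)), pow_add]; ring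
      rw [abs_mul, abs_pow]
      refine le_trans ?_ e2
      apply mul_le_mul_of_nonneg_left _ (abs_nonneg _)
      exact pow_le_pow_left₀ (abs_nonneg x) hMx K
    have hsplit := hS.summable.sum_add_tsum_nat_add (3 * m)
    rw [hS.tsum_eq] at hsplit
    rw [← hsplit]
    have hx0lt : x0 < 1 := lt_of_le_of_lt hx0half (by norm_num)
    have hgeo : HasSum (fun k : ℕ => (A : ℝ) * C * S0 * x0 ^ (m + 1) * x0 ^ k)
        ((A : ℝ) * C * S0 * x0 ^ (m + 1) * (1 - x0)⁻¹) :=
      (hasSum_geometric_of_lt_one hx0pos hx0lt).mul_left _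
    have htail := tsum_of_norm_bounded hgeo (fun k => by
      rw [Real.norm_eq_abs]; exact hhigh k)
    rw [Real.norm_eq_abs] at htail
    have hlowsum : |∑ i ∈ Finset.range (3 * m), r i * x ^ i| ≤ 1 / 2 * (1 / 2 ^ m) := by
      refine (Finset.abs_sum_le_sum_abs _ _).trans ?_
      refine (Finset.sum_le_sum hlow).trans (le_of_eq ?_)
      rw [Finset.sum_const, Finset.card_range, nsmul_eq_mul]
      push_cast
      field_simp
      ring
    have h2m : (0 : ℝ) < 2 ^ m := by positivity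
    have hfin2 : (A : ℝ) * C * S0 * x0 ^ (m + 1) * (1 - x0)⁻¹ < 1 / 2 * (1 / 2 ^ m) := by
      have h3 : (A : ℝ) * C * S0 * x0 ^ (m + 1) ≤ 1 / 4 * (1 / 2 ^ m) := by
        rw [mul_one_div, le_div_iff₀ h2m]
        linarith
      have h4 : (1 - x0)⁻¹ ≤ 4 / 3 := by
        rw [inv_le_comm₀ (by linarith) (by norm_num)]
        linarith
      have h5 : (0 : ℝ) < 1 / 2 ^ m := by positivity
      calc (A : ℝ) * C * S0 * x0 ^ (m + 1) * (1 - x0)⁻¹
          ≤ (1 / 4 * (1 / 2 ^ m)) * (4 / 3) := by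
            apply mul_le_mul h3 h4 (by positivity) (by positivity)
        _ < 1 / 2 * (1 / 2 ^ m) := by linarith
    calc |∑ i ∈ Finset.range (3 * m), r i * x ^ i + ∑' i, r (i + 3 * m) * x ^ (i + 3 * m)|
        ≤ |∑ i ∈ Finset.range (3 * m), r i * x ^ i| + |∑' i, r (i + 3 * m) * x ^ (i + 3 * m)| := abs_add_le _ _
      _ < 1 / 2 ^ m := by linarith

/-- **[RSD-A6b]** Integrality: if moreover `x = j` is an integer and `y = p/q` with
`1 ≤ q ≤ 2^m`, then `P(j) + Q(j) y = 0` (multiply by `q`: an integer of absolute value `< 1`). -/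
theorem integrality (m : ℕ) (u v p : ℤ) (q : ℕ) (hq : 1 ≤ q) (hqm : q ≤ 2 ^ m)
    (h : |(u : ℝ) + v * ((p : ℝ) / q)| < 1 / 2 ^ m) :
    (u : ℝ) + v * ((p : ℝ) / q) = 0 := by
  have hq0 : (0 : ℝ) < q := by exact_mod_cast hq
  have e : (u : ℝ) + v * ((p : ℝ) / q) = ((u * q + v * p : ℤ) : ℝ) / q := by
    push_cast; field_simp
  rw [e] at h ⊢
  rw [abs_div, abs_of_pos hq0, div_lt_div_iff₀ hq0 (by positivity), one_mul] at h
  have hqm' : (q : ℝ) ≤ 2 ^ m := by exact_mod_cast hqm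
  have h1 : |((u * q + v * p : ℤ) : ℝ)| < 1 := by
    by_contra hcon
    push Not at hcon
    have : (1 : ℝ) * 2 ^ m ≤ |((u * q + v * p : ℤ) : ℝ)| * 2 ^ m :=
      mul_le_mul_of_nonneg_right hcon (by positivity)
    linarith
  have h2 : |u * q + v * p| < 1 := by exact_mod_cast h1
  have h3 : u * q + v * p = 0 := Int.abs_lt_one_iff.mp h2
  rw [h3]; simp

end Pool.Agent.RSD
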